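import Mathlib

namespace Pool.Agent.Results.MP_2248a2_co.Disproof

open SimpleGraph

def nb : List ℕ := [17465673858, 571609349, 1143218698, 2286437396, 4572874792, 9145749584, 18291499168, 2223259969, 4446519938, 8893039876, 17786079752, 1212421137, 2424842274, 4849684548, 9699369096, 19398738192, 4437738017, 8875476034, 17750952068, 1142165769, 2284331538, 4568663076, 9137326152, 18274652304, 2189566241, 4379132482, 8758264964, 17516529928, 673321489, 1346642978, 2693285956, 5386571912, 10773143824, 21546287648, 8732836929]

def F (u v : Fin 35) : Bool := (nb.getD u 0).testBit v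

def G : SimpleGraph (Fin 35) where
  Adj u v := (u != v && !F u v) = true
  symm := ⟨by decide +kernel⟩
  loopless := ⟨by decide +kernel⟩

instance : DecidableRel G.Adj := fun _ _ => inferInstanceAs (Decidable (_ = true))

def go : ℕ → List (Fin 35) → ℕ → Bool
  | _, _, 0 => false
  | 0, _, _ + 1 => false
  | _ + 1, [], _ + 1 => true
  | f + 1, v :: l, k + 1 => decide (l.length < k) ||
      (go f (l.filter fun w => !F v w) k && go f l (k + 1))

lemma go_sound : ∀ (f : ℕ) (l : List (Fin 35)) (k : ℕ), go f l k = true →
    ∀ S : Finset (Fin 35), G.IsClique S → (∀ x ∈ S, x ∈ l) → S.card < k := by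
  intro f
  induction f with
  | zero => intro l k h; cases k <;> simp [go] at h
  | succ f ih =>
    intro l k h S hS hl
    cases k with
    | zero => simp [go] at h
    | succ k =>
      cases l with
      | nil =>
        have : S = ∅ := Finset.eq_empty_of_forall_notMem fun x hx => by simpa using hl x hx
        simp [this]
      | cons v l =>
        simp only [go, Bool.or_eq_true, decide_eq_true_eq, Bool.and_eq_true] at h
        rcases h with h | ⟨h1, h2⟩
        · have h3 : S ⊆ (v :: l).toFinset := fun x hx => List.mem_toFinset.2 (hl x hx)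
          have := (Finset.card_le_card h3).trans (List.toFinset_card_le _)
          simp only [List.length_cons] at this
          omega
        · by_cases hv : v ∈ S
          · have := ih _ _ h1 (S.erase v) (hS.subset (by simp)) fun x hx => by
              obtain ⟨a1, a2⟩ := Finset.mem_erase.1 hx
              have a3 : G.Adj v x := hS hv a2 a1.symm
              simp only [G, Bool.and_eq_true] at a3
              exact List.mem_filter.2 ⟨(List.mem_cons.1 (hl x a2)).resolve_left a1, a3.2⟩
            rw [Finset.card_erase_of_mem hv] at this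
            omega
          · exact ih _ _ h2 S hS fun x hx =>
              (List.mem_cons.1 (hl x hx)).resolve_left fun e => hv (e ▸ hx)

lemma omega_le : G.cliqueNum ≤ 8 := by
  obtain ⟨S, hS⟩ := G.exists_isNClique_cliqueNum
  have := go_sound 40 (List.finRange 35) 9 (by decide +kernel) S hS.1 fun x _ => List.mem_finRange x
  have := hS.2
  omega

lemma fiber {V α : Type} [Fintype V] [DecidableEq V] [DecidableEq α] (f : V → Fin 35)
    (hf : Function.Injective f) (C : V → α) (hC : ∀ u v, G.Adj (f u) (f v) → C u ≠ C v) :
    Fintype.card V ≤ 2 * (Finset.univ.image C).card := by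
  refine Finset.card_le_mul_card_image _ 2 fun a _ => ?_
  by_contra h
  obtain ⟨x, hx, y, hy, z, hz, h1, h2, h3⟩ := Finset.two_lt_card.1 (not_le.1 h)
  have key : ∀ x y : Fin 35, x ≠ y → ¬ G.Adj x y → ∀ z, x ≠ z → y ≠ z → ¬ G.Adj x z → G.Adj y z := by
    decide +kernel
  have e1 := (Finset.mem_filter.1 hx).2
  have e2 := (Finset.mem_filter.1 hy).2
  have e3 := (Finset.mem_filter.1 hz).2
  exact hC y z (key _ _ (hf.ne h1) (fun h => hC x y h (e1.trans e2.symm)) _ (hf.ne h2) (hf.ne h3)
    (fun h => hC x z h (e1.trans e3.symm))) (e2.trans e3.symm)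

lemma chi_ge {V : Type} [Fintype V] [DecidableEq V] (H : SimpleGraph V) (f : V → Fin 35)
    (hf : Function.Injective f) (hH : ∀ u v, G.Adj (f u) (f v) → H.Adj u v) :
    Fintype.card V ≤ 2 * H.chromaticNumber.toNat := by
  obtain ⟨C⟩ := H.colorable_chromaticNumber_of_fintype
  have h1 := fiber f hf C fun u v h => C.valid (hH u v h)
  have h2 := Finset.card_le_univ (Finset.univ.image C)
  rw [Fintype.card_fin] at h2
  omega

def col : G.Coloring ℕ := Coloring.mk (fun v => v.val / 2) (by decide +kernel)

/-- A graph `G` and a proper colouring `c` such that every induced subgraph `H` has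
`|c(H)| - χ(H) < χ(G) - ω(G)`; so `φ(G) < χ(G) - ω(G)`. -/
theorem result : ∃ (n : ℕ) (G : SimpleGraph (Fin n)) (c : G.Coloring ℕ), ∀ S : Finset (Fin n),
    ((S.image c).card : ℤ) - (G.induce (S : Set (Fin n))).chromaticNumber.toNat <
      (G.chromaticNumber.toNat : ℤ) - G.cliqueNum := by
  refine ⟨35, G, col, fun S => ?_⟩
  have h1 := chi_ge G id Function.injective_id fun _ _ h => h
  have h2 := chi_ge (G.induce (S : Set (Fin 35))) Subtype.val Subtype.val_injective fun _ _ h => h
  have h3 := omega_le
  have h4 : (S.image col).card ≤ S.card := Finset.card_image_le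
  have h5 : (S.image col).card ≤ 18 := by
    refine (Finset.card_le_card (Finset.image_subset_image (Finset.subset_univ S))).trans ?_
    decide +kernel
  simp only [Fintype.card_fin, Finset.coe_sort_coe, Fintype.card_coe] at h1 h2
  omega

end Pool.Agent.Results.MP_2248a2_co.Disproof
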